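import Mathlib
import Pool.Agent.Helper90.BAV.Average

/-! A lower bound for the average length of the words of a bayonet code. -/

set_option autoImplicit false

namespace Pool.Agent.Results.MP_f42cbf_co.AverageLength

open Pool.Agent.Helper38.TC Pool.Agent.Helper31.BAY Pool.Agent.Helper90.BAV in
/-- If `X` is a finite code of words `a^i b a^j` and `N = Card X` then
`8 N^2 ≤ 9 * ∑ (2 |x| - 1)`, that is, `∑ |x| ≥ (4/9) N^2 + N/2`. -/
theorem result {α : Type*} (a b : α) (hab : a ≠ b) (X : Finset (List α))
    (hX : ∀ x ∈ X, ∃ i j : ℕ, x = List.replicate i a ++ b :: List.replicate j a)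
    (hcode : InformationTheory.UniquelyDecodable (X : Set (List α))) :
    8 * X.card ^ 2 + 9 * X.card ≤ 18 * ∑ x ∈ X, x.length := by
  classical
  have hwd : ∀ p : ℕ × ℕ, wd a b p = List.replicate p.1 a ++ b :: List.replicate p.2 a :=
    fun _ => rfl
  set G : Finset (ℕ × ℕ) := X.preimage (wd a b) ((wd_inj hab).injOn) with hG
  have himg : wd a b '' (G : Set (ℕ × ℕ)) = (X : Set (List α)) := by
    ext x
    constructor
    · rintro ⟨p, hp, rfl⟩
      exact Finset.mem_coe.2 (Finset.mem_preimage.1 (Finset.mem_coe.1 hp))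
    · intro hx
      obtain ⟨i, j, h⟩ := hX x (Finset.mem_coe.1 hx)
      refine ⟨(i, j), Finset.mem_coe.2 (Finset.mem_preimage.2 ?_), ?_⟩
      · rw [hwd, ← h]
        exact Finset.mem_coe.1 hx
      · rw [hwd, ← h]
  have himg2 : G.image (wd a b) = X := by
    have : ((G.image (wd a b) : Finset (List α)) : Set (List α)) = X := by
      rw [Finset.coe_image]
      exact himg
    exact_mod_cast this
  have hcard : G.card = X.card := by
    rw [← Finset.card_image_of_injective G (wd_inj hab), himg2]
  obtain ⟨P, h0, hs, hP⟩ := defects hab (X := G) (by rw [himg]; exact hcode)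
  have h1 := weight_bound h0 hs hP
  have h2 : WT G = 2 * ((∑ x ∈ X, x.length : ℕ) : ℝ) - X.card := by
    rw [← himg2, Finset.sum_image (fun p _ q _ h => wd_inj hab h),
      Finset.card_image_of_injective G (wd_inj hab), WT, Finset.card_eq_sum_ones]
    push_cast
    rw [Finset.mul_sum, ← Finset.sum_sub_distrib]
    refine Finset.sum_congr rfl fun p _ => ?_
    simp only [dg, wd, List.length_append, List.length_replicate, List.length_cons]
    push_cast
    ring
  rw [h2, hcard] at h1
  have h3 : (8 : ℝ) * X.card ^ 2 + 9 * X.card ≤ 18 * ((∑ x ∈ X, x.length : ℕ) : ℝ) := by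
    linarith
  exact_mod_cast h3

end Pool.Agent.Results.MP_f42cbf_co.AverageLength
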