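import Mathlib
import Pool.Agent.Helper31.BAY.Upper

/-! An upper bound for the cardinality of a bayonet code. -/

set_option autoImplicit false

namespace Pool.Agent.Results.MP_f42cbf_co.BayonetUpperBound

open Pool.Agent.Helper38.TC Pool.Agent.Helper31.BAY in
/-- A finite code of words `a^i b a^j` of length at most `L` has at most `1.657 L` words. -/
theorem result {α : Type*} (a b : α) (hab : a ≠ b) (X : Finset (List α))
    (hX : ∀ x ∈ X, ∃ i j : ℕ, x = List.replicate i a ++ b :: List.replicate j a)
    (hcode : InformationTheory.UniquelyDecodable (X : Set (List α)))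
    (L : ℕ) (hL : ∀ x ∈ X, x.length ≤ L) :
    1000 * X.card ≤ 1657 * L := by
  classical
  have hwd : ∀ p : ℕ × ℕ, wd a b p = List.replicate p.1 a ++ b :: List.replicate p.2 a :=
    fun _ => rfl
  set G : Finset (ℕ × ℕ) := X.preimage (wd a b) ((wd_inj hab).injOn) with hG
  have himg : wd a b '' (G : Set (ℕ × ℕ)) = (X : Set (List α)) := by
    ext x
    constructor
    · rintro ⟨p, hp, rfl⟩
      exact Finset.mem_coe.2 (Finset.mem_preimage.1 (Finset.mem_coe.1 hp))
    · intro hx
      obtain ⟨i, j, h⟩ := hX x (Finset.mem_coe.1 hx)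
      refine ⟨(i, j), Finset.mem_coe.2 (Finset.mem_preimage.2 ?_), ?_⟩
      · rw [hwd, ← h]
        exact Finset.mem_coe.1 hx
      · rw [hwd, ← h]
  have hcard : G.card = X.card := by
    rw [← Finset.card_image_of_injective G (wd_inj hab)]
    congr 1
    have : ((G.image (wd a b) : Finset (List α)) : Set (List α)) = X := by
      rw [Finset.coe_image]
      exact himg
    exact_mod_cast this
  obtain ⟨P, h0, hs, hP⟩ := defects hab (X := G) (by rw [himg]; exact hcode)
  have h1 := card_tri h0 hs L G hP (by
    intro p hp
    have h2 := hL _ (Finset.mem_preimage.1 hp)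
    simp only [wd, List.length_append, List.length_replicate, List.length_cons] at h2
    omega)
  rw [hcard] at h1
  have h3 : (1000 : ℝ) * X.card ≤ 1657 * L := by linarith
  exact_mod_cast h3

end Pool.Agent.Results.MP_f42cbf_co.BayonetUpperBound
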