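import Mathlib
import Pool.Agent.Helper38.TC.Base
import Pool.Agent.Helper31.BAY.Short

/-! Complete bayonet codes whose ratio tends to 13/12. -/

set_option autoImplicit false

namespace Pool.Agent.Results.MP_f42cbf_co.CompleteBayonetRatio

open Pool.Agent.Helper38.TC Pool.Agent.Helper31.BAY in
/-- For all `t, m ≥ 1` and `n = (6t+2)(6t+3)m` there is a set `X` of exactly `n` words
`a^i b a^j` such that `X ∪ {a^n}` is a code, no further word of `a*ba*` can be added to `X`, and
at least `(26t+8)m` words of `X` have length at most `(24t+8)m`. -/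
theorem result (k : ℕ) (a b : Fin k) (hab : a ≠ b) (t m : ℕ) (ht : 0 < t)
    (hm : 0 < m) :
    ∃ X : Finset (List (Fin k)),
      (∀ x ∈ X, ∃ i j : ℕ, x = List.replicate i a ++ b :: List.replicate j a) ∧
      InformationTheory.UniquelyDecodable
        (insert (List.replicate ((6 * t + 2) * (6 * t + 3) * m) a) (X : Set (List (Fin k)))) ∧
      X.card = (6 * t + 2) * (6 * t + 3) * m ∧
      (∀ Z : Set (List (Fin k)),
        (∀ z ∈ Z, ∃ i j : ℕ, z = List.replicate i a ++ b :: List.replicate j a) →
        (X : Set (List (Fin k))) ⊆ Z →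
        InformationTheory.UniquelyDecodable (insert (List.replicate ((6 * t + 2) * (6 * t + 3) * m) a) Z) →
        Z = (X : Set (List (Fin k)))) ∧
      (26 * t + 8) * m ≤ (X.filter (fun x => x.length ≤ (24 * t + 8) * m)).card := by
  classical
  have hcard : ((XX t m).image (wd a b)).card = (6 * t + 2) * (6 * t + 3) * m := by
    rw [Finset.card_image_of_injective _ (wd_inj hab), XX_card]
  refine ⟨(XX t m).image (wd a b), ?_, ?_, hcard, ?_, ?_⟩
  · intro x hx
    obtain ⟨p, -, rfl⟩ := Finset.mem_image.1 hx
    exact ⟨p.1, p.2, rfl⟩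
  · have := XX_ud hab t hm
    rw [Yset] at this
    rw [Finset.coe_image]
    exact this
  · intro Z hZ hXZ hud
    refine (Set.Subset.antisymm hXZ ?_).symm
    intro z hz
    by_contra hzX
    set F : Finset (List (Fin k)) := insert z ((XX t m).image (wd a b)) with hF
    have hFZ : (F : Set (List (Fin k))) ⊆ Z := by
      rw [hF, Finset.coe_insert]
      exact Set.insert_subset hz hXZ
    have hFcard : F.card = (6 * t + 2) * (6 * t + 3) * m + 1 := by
      rw [hF, Finset.card_insert_of_notMem (by exact_mod_cast hzX), hcard]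
    -- choose pairs
    have hex : ∀ x ∈ F, ∃ p : ℕ × ℕ, wd a b p = x := by
      intro x hx
      obtain ⟨i, j, h⟩ := hZ x (hFZ hx)
      exact ⟨(i, j), h.symm⟩
    set G : Finset (ℕ × ℕ) := F.preimage (wd a b) ((wd_inj hab).injOn) with hG
    have hGF : G.image (wd a b) = F := by
      ext x
      rw [Finset.mem_image]
      constructor
      · rintro ⟨p, hp, rfl⟩
        exact Finset.mem_preimage.1 hp
      · intro hx
        obtain ⟨p, hp⟩ := hex x hx
        exact ⟨p, Finset.mem_preimage.2 (by rw [hp]; exact hx), hp⟩
    have hGcard : G.card = (6 * t + 2) * (6 * t + 3) * m + 1 := by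
      rw [← hFcard, ← hGF, Finset.card_image_of_injective _ (wd_inj hab)]
    have hle := card_le hab (n := (6 * t + 2) * (6 * t + 3) * m) G (by
      intro l₁ l₂ h₁ h₂ h
      refine hud l₁ l₂ ?_ ?_ h
      · intro w hw
        rcases h₁ w hw with h' | ⟨p, hp, h'⟩
        · exact Or.inl h'
        · right
          rw [← h']
          exact hFZ (Finset.mem_preimage.1 hp)
      · intro w hw
        rcases h₂ w hw with h' | ⟨p, hp, h'⟩
        · exact Or.inl h'
        · right
          rw [← h']
          exact hFZ (Finset.mem_preimage.1 hp))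
    omega
  · refine (XX_short ht m).trans ?_
    rw [← Finset.card_image_of_injective _ (wd_inj hab)]
    refine Finset.card_le_card ?_
    intro x hx
    obtain ⟨p, hp, rfl⟩ := Finset.mem_image.1 hx
    rw [Finset.mem_filter] at hp ⊢
    refine ⟨Finset.mem_image_of_mem _ hp.1, ?_⟩
    have : (wd a b p).length = p.1 + p.2 + 1 := by
      simp [wd]
      ring
    rw [this]
    exact hp.2

end Pool.Agent.Results.MP_f42cbf_co.CompleteBayonetRatio
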