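import Mathlib
import Pool.Agent.Helper98.TS.Asm
import Pool.Agent.Helper82.TS.Spec

/-!
# MP_f42cbf_co: a two-sided inequality for the words `a^i b a^j` of a finite maximal code

Let `C` be a finite maximal code, `a ≠ b` letters, `X = C ∩ a^* b a^*`.  There is exactly one `n` with `a^n ∈ C`, and for all nonnegative
functions `u`, `v` on `ℤ/n`

  `∑_k min_(p + q = k) u(p) v(q) ≤ ∑_(a^i b a^j ∈ X) u(i) v(j) ≤ ∑_k max_(p + q = k) u(p) v(q)`.

So `Card X = n`, `Card (X ∩ a^I b a^J) ≤ Card (I + J)`, and `∑_(x ∈ X) t^|x| ≤ t + t^2 + ... + t^n` for `0 < t ≤ 1`, with the reverse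
inequality for `t ≥ 1`; equivalently `∑_(m < M) (min m n - Card {x ∈ X : |x| ≤ m}) t^m ≥ 0` for every `t > 0` and all large `M` (Q1 for the
sets `{x ∈ X : |x| ≤ m}` says that all the coefficients are `≥ 0`).

Proof.  A product of words `x_0, ..., x_L` of `X` with powers of `a^n` between them has the labels `j_l + i_(l+1)` modulo `n`.  Since `C` is
complete (Schützenberger) every sequence of labels occurs, since `C` is a code the labels and the two ends determine the `x_l`.  So the matrix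
`g(j_x + i_y)`, `x, y ∈ X`, has the spectral radius `∑_k g(k)`, and it is compared with the matrix `v(j_x) u(i_y)` of rank one.
-/

set_option autoImplicit false

open InformationTheory
open scoped Pointwise

namespace Pool.Agent.Results.MP_f42cbf_co.TwoSidedInequality

open Pool.Agent.Helper98.TS

private theorem setup {α : Type*} {a b : α} (hab : a ≠ b) {C : Set (List α)} (hfin : C.Finite)
    (hcode : UniquelyDecodable C) (hmax : ∀ D : Set (List α), C ⊆ D → UniquelyDecodable D → D = C) :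
    ∃ (n : ℕ) (_ : NeZero n) (X : Finset (ℕ × ℕ)),
      (∀ k, List.replicate k a ∈ C ↔ k = n) ∧
      (∀ p, p ∈ X ↔ List.replicate p.1 a ++ b :: List.replicate p.2 a ∈ C) ∧
      (∀ u v g : ZMod n → ℝ, (∀ p, 0 ≤ u p) → (∀ p, 0 ≤ v p) → (∀ k, 0 ≤ g k) →
        ((∀ p q, u p * v q ≤ g (p + q)) →
          ∑ x ∈ X, u ((x.1 : ℕ) : ZMod n) * v ((x.2 : ℕ) : ZMod n) ≤ ∑ k, g k) ∧
        ((∀ p q, g (p + q) ≤ u p * v q) →
          ∑ k, g k ≤ ∑ x ∈ X, u ((x.1 : ℕ) : ZMod n) * v ((x.2 : ℕ) : ZMod n))) := by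
  obtain ⟨n, m, h⟩ := fmc_of_maximal hab hfin hcode hmax
  obtain ⟨X, hX⟩ := exists_pairs hab hfin
  have : NeZero n := ⟨h.pos.ne'⟩
  refine ⟨n, ⟨h.pos.ne'⟩, X, fun k => ⟨h.uniq k, fun e => by rw [e]; exact h.pown⟩, hX, ?_⟩
  intro u v g hu hv hg
  refine Helper82.TS.spec n X ?_ ?_ u v g hu hv hg
  · intro L x y hx hy h0 hl hlast
    exact h.upper L x y (fun l => (hX _).mp (hx l)) (fun l => (hX _).mp (hy l)) h0 hl hlast
  · intro L k
    obtain ⟨x, h1, h2⟩ := h.lower L k
    exact ⟨x, fun l => (hX _).mpr (h1 l), h2⟩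

theorem result {α : Type*} (a b : α) (hab : a ≠ b) (C : Set (List α)) (hfin : C.Finite)
    (hcode : UniquelyDecodable C) (hmax : ∀ D : Set (List α), C ⊆ D → UniquelyDecodable D → D = C) :
    ∃ (n : ℕ) (_ : NeZero n) (X : Finset (ℕ × ℕ)),
      (∀ k, List.replicate k a ∈ C ↔ k = n) ∧
      (∀ p, p ∈ X ↔ List.replicate p.1 a ++ b :: List.replicate p.2 a ∈ C) ∧
      X.card = n ∧
      (∀ u v : ZMod n → ℝ, (∀ p, 0 ≤ u p) → (∀ p, 0 ≤ v p) →
        ∑ k, ⨅ p, u p * v (k - p) ≤ ∑ x ∈ X, u (x.1 : ZMod n) * v (x.2 : ZMod n) ∧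
        ∑ x ∈ X, u (x.1 : ZMod n) * v (x.2 : ZMod n) ≤ ∑ k, ⨆ p, u p * v (k - p)) ∧
      (∀ I J : Finset (ZMod n),
        (X.filter fun x => (x.1 : ZMod n) ∈ I ∧ (x.2 : ZMod n) ∈ J).card ≤ (I + J).card) ∧
      (∀ t : ℝ, 0 < t → t ≤ 1 →
        ∑ x ∈ X, t ^ (x.1 + x.2 + 1) ≤ ∑ k ∈ Finset.range n, t ^ (k + 1)) ∧
      (∀ t : ℝ, 1 ≤ t →
        ∑ k ∈ Finset.range n, t ^ (k + 1) ≤ ∑ x ∈ X, t ^ (x.1 + x.2 + 1)) ∧
      (∀ (t : ℝ) (M : ℕ), 0 < t → n ≤ M → (∀ x ∈ X, x.1 + x.2 + 1 ≤ M) →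
        0 ≤ ∑ m ∈ Finset.range M,
          ((min m n : ℕ) - ((X.filter fun x => x.1 + x.2 + 1 ≤ m).card : ℝ)) * t ^ m) ∧
      n * (n + 1) ≤ 2 * ∑ x ∈ X, (x.1 + x.2 + 1) ∧ ∃ x ∈ X, n ≤ x.1 + x.2 + 1 := by
  classical
  obtain ⟨n, hn, X, h1, h2, h3⟩ := setup hab hfin hcode hmax
  have := hn
  have hbdd : ∀ f : ZMod n → ℝ, BddAbove (Set.range f) := fun f => (Set.finite_range f).bddAbove
  have hbdd' : ∀ f : ZMod n → ℝ, BddBelow (Set.range f) := fun f => (Set.finite_range f).bddBelow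
  have hrange : ∀ f : ℕ → ℝ, ∑ k : ZMod n, f k.val = ∑ k ∈ Finset.range n, f k := by
    intro f
    rw [Finset.sum_bij (fun (k : ZMod n) _ => k.val)]
    · intro k _
      exact Finset.mem_range.mpr (ZMod.val_lt k)
    · intro k _ l _ h
      exact ZMod.val_injective n h
    · intro k hk
      exact ⟨(k : ZMod n), Finset.mem_univ _, ZMod.val_natCast_of_lt (Finset.mem_range.mp hk)⟩
    · intro k _
      rfl
  have hcard : X.card = n := by
    obtain ⟨e1, e2⟩ := h3 (fun _ => 1) (fun _ => 1) (fun _ => 1) (fun _ => zero_le_one)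
      (fun _ => zero_le_one) (fun _ => zero_le_one)
    have e3 := e1 (fun _ _ => by norm_num)
    have e4 := e2 (fun _ _ => by norm_num)
    simp only [mul_one, Finset.sum_const, nsmul_eq_mul, Finset.card_univ, ZMod.card] at e3 e4
    exact_mod_cast le_antisymm e3 e4
  have hge : ∀ t : ℝ, 1 ≤ t →
      ∑ k ∈ Finset.range n, t ^ (k + 1) ≤ ∑ x ∈ X, t ^ (x.1 + x.2 + 1) := by
    intro t ht1
    have ht : 0 ≤ t := le_trans zero_le_one ht1
    have e1 := (h3 (fun p => t ^ p.val) (fun q => t ^ q.val) (fun k => t ^ k.val)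
      (fun p => pow_nonneg ht _) (fun p => pow_nonneg ht _) (fun p => pow_nonneg ht _)).2 (by
        intro p q
        rw [← pow_add]
        exact pow_le_pow_right₀ ht1 (ZMod.val_add_le p q))
    rw [hrange (fun k => t ^ k)] at e1
    have e2 : ∑ k ∈ Finset.range n, t ^ k ≤ ∑ x ∈ X, t ^ (x.1 + x.2) := by
      refine le_trans e1 (Finset.sum_le_sum fun x _ => ?_)
      rw [pow_add]
      refine mul_le_mul ?_ ?_ (pow_nonneg ht _) (pow_nonneg ht _)
      · exact pow_le_pow_right₀ ht1 (by rw [ZMod.val_natCast]; exact Nat.mod_le _ _)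
      · exact pow_le_pow_right₀ ht1 (by rw [ZMod.val_natCast]; exact Nat.mod_le _ _)
    have e3 := mul_le_mul_of_nonneg_right e2 ht
    rw [Finset.sum_mul, Finset.sum_mul] at e3
    simpa only [pow_succ] using e3
  have hnpos : 0 < n := Nat.pos_of_ne_zero hn.out
  have hle : ∀ t : ℝ, 0 < t → t ≤ 1 →
      ∑ x ∈ X, t ^ (x.1 + x.2 + 1) ≤ ∑ k ∈ Finset.range n, t ^ (k + 1) := by
    intro t ht ht1
    have e1 := (h3 (fun p => t ^ p.val) (fun q => t ^ q.val) (fun k => t ^ k.val)
      (fun p => pow_nonneg ht.le _) (fun p => pow_nonneg ht.le _) (fun p => pow_nonneg ht.le _)).1 (by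
        intro p q
        rw [← pow_add]
        exact pow_le_pow_of_le_one ht.le ht1 (ZMod.val_add_le p q))
    rw [hrange (fun k => t ^ k)] at e1
    have e2 : ∑ x ∈ X, t ^ (x.1 + x.2) ≤ ∑ k ∈ Finset.range n, t ^ k := by
      refine le_trans (Finset.sum_le_sum fun x _ => ?_) e1
      rw [pow_add]
      refine mul_le_mul ?_ ?_ (pow_nonneg ht.le _) (pow_nonneg ht.le _)
      · exact pow_le_pow_of_le_one ht.le ht1 (by rw [ZMod.val_natCast]; exact Nat.mod_le _ _)
      · exact pow_le_pow_of_le_one ht.le ht1 (by rw [ZMod.val_natCast]; exact Nat.mod_le _ _)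
    have e3 := mul_le_mul_of_nonneg_right e2 ht.le
    rw [Finset.sum_mul, Finset.sum_mul] at e3
    simpa only [pow_succ] using e3
  have hsum : ∑ k ∈ Finset.range n, (k + 1) ≤ ∑ x ∈ X, (x.1 + x.2 + 1) := by
    -- the derivative at `t = 1`
    have hd : HasDerivAt (fun t : ℝ => ∑ x ∈ X, t ^ (x.1 + x.2 + 1) -
        ∑ k ∈ Finset.range n, t ^ (k + 1))
        (∑ x ∈ X, ((x.1 + x.2 + 1 : ℕ) : ℝ) - ∑ k ∈ Finset.range n, ((k + 1 : ℕ) : ℝ)) 1 := by
      have e : ∀ m : ℕ, HasDerivAt (fun t : ℝ => t ^ m) ((m : ℝ)) 1 := by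
        intro m
        simpa using hasDerivAt_pow m (1 : ℝ)
      exact (HasDerivAt.fun_sum fun x _ => e _).sub (HasDerivAt.fun_sum fun k _ => e _)
    have h0 := (hasDerivWithinAt_iff_tendsto_slope' (s := Set.Ioi (1 : ℝ)) (by simp)).mp
      hd.hasDerivWithinAt
    have h5 : (0 : ℝ) ≤ ∑ x ∈ X, ((x.1 + x.2 + 1 : ℕ) : ℝ) - ∑ k ∈ Finset.range n, ((k + 1 : ℕ) : ℝ) := by
      refine ge_of_tendsto h0 ?_
      filter_upwards [self_mem_nhdsWithin] with t ht
      rw [slope_def_field]
      have h6 := hge t (le_of_lt ht)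
      have h7 : (0 : ℝ) < t - 1 := sub_pos.mpr ht
      apply div_nonneg _ h7.le
      simp only [one_pow, Finset.sum_const, hcard, Finset.card_range, sub_self, sub_zero]
      linarith
    have : (∑ k ∈ Finset.range n, ((k + 1 : ℕ) : ℝ)) ≤ ∑ x ∈ X, ((x.1 + x.2 + 1 : ℕ) : ℝ) := by
      linarith
    exact_mod_cast this
  refine ⟨n, hn, X, h1, h2, hcard, ?_, ?_, hle, hge, ?_, ?_, ?_⟩
  · intro u v hu hv
    have hnn : ∀ k p, 0 ≤ u p * v (k - p) := fun k p => mul_nonneg (hu p) (hv _)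
    constructor
    · refine (h3 u v (fun k => ⨅ p, u p * v (k - p)) hu hv ?_).2 ?_
      · intro k
        exact le_ciInf fun p => hnn k p
      · intro p q
        have := ciInf_le (hbdd' fun p' => u p' * v (p + q - p')) p
        simpa using this
    · refine (h3 u v (fun k => ⨆ p, u p * v (k - p)) hu hv ?_).1 ?_
      · intro k
        exact le_trans (hnn k 0) (le_ciSup (hbdd fun p => u p * v (k - p)) 0)
      · intro p q
        have := le_ciSup (hbdd fun p' => u p' * v (p + q - p')) p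
        simpa using this
  · intro I J
    have e1 := (h3 (fun p => if p ∈ I then 1 else 0) (fun q => if q ∈ J then 1 else 0)
      (fun k => if k ∈ I + J then 1 else 0) (fun p => by split_ifs <;> norm_num)
      (fun p => by split_ifs <;> norm_num)
      (fun p => by split_ifs <;> norm_num)).1 (by
        intro p q
        by_cases hp : p ∈ I
        · by_cases hq : q ∈ J
          · rw [if_pos hp, if_pos hq, if_pos (Finset.add_mem_add hp hq)]; norm_num
          · rw [if_neg hq, mul_zero]; split_ifs <;> norm_num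
        · rw [if_neg hp, zero_mul]; split_ifs <;> norm_num)
    rw [Finset.card_filter]
    have e2 : ∑ k : ZMod n, (if k ∈ I + J then (1 : ℝ) else 0) = ((I + J).card : ℝ) := by
      rw [Finset.sum_ite_mem, Finset.univ_inter, Finset.sum_const, nsmul_eq_mul, mul_one]
    rw [e2] at e1
    have e3 : ∑ x ∈ X, (if ((x.1 : ℕ) : ZMod n) ∈ I then (1 : ℝ) else 0) *
        (if ((x.2 : ℕ) : ZMod n) ∈ J then (1 : ℝ) else 0) =
        ((∑ x ∈ X, if ((x.1 : ℕ) : ZMod n) ∈ I ∧ ((x.2 : ℕ) : ZMod n) ∈ J then 1 else 0 : ℕ) : ℝ) := by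
      push_cast
      refine Finset.sum_congr rfl fun x _ => ?_
      by_cases hp : ((x.1 : ℕ) : ZMod n) ∈ I
      · by_cases hq : ((x.2 : ℕ) : ZMod n) ∈ J
        · simp [hp, hq]
        · simp [hq]
      · simp [hp]
    rw [e3] at e1
    exact_mod_cast e1
  · intro t M ht hM hX
    set S : ℕ → ℝ := fun k => ∑ m ∈ Finset.range M, if k ≤ m then t ^ m else 0 with hS
    have hSk : ∀ k, k ≤ M → (1 - t) * S k = t ^ k - t ^ M := by
      intro k hk
      have e1 : S k = ∑ m ∈ Finset.Ico k M, t ^ m := by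
        rw [hS]
        dsimp only
        rw [← Finset.sum_filter]
        refine Finset.sum_congr ?_ fun _ _ => rfl
        ext m
        simp only [Finset.mem_filter, Finset.mem_range, Finset.mem_Ico]
        exact and_comm
      rw [e1]
      have e2 := geom_sum_Ico_mul t hk
      linear_combination -e2
    have e1 : ∑ m ∈ Finset.range M,
        ((min m n : ℕ) - ((X.filter fun x => x.1 + x.2 + 1 ≤ m).card : ℝ)) * t ^ m =
        ∑ k ∈ Finset.range n, S (k + 1) - ∑ x ∈ X, S (x.1 + x.2 + 1) := by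
      rw [hS]
      dsimp only
      rw [Finset.sum_comm, Finset.sum_comm (s := X), ← Finset.sum_sub_distrib]
      refine Finset.sum_congr rfl fun m _ => ?_
      rw [sub_mul]
      congr 1
      · rw [← Finset.sum_filter, Finset.sum_const, nsmul_eq_mul]
        congr 2
        have : (Finset.range n).filter (fun k => k + 1 ≤ m) = Finset.range (min m n) := by
          ext k
          simp only [Finset.mem_filter, Finset.mem_range, lt_min_iff]
          exact ⟨fun h => ⟨h.2, h.1⟩, fun h => ⟨h.2, h.1⟩⟩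
        rw [this, Finset.card_range]
      · rw [← Finset.sum_filter, Finset.sum_const, nsmul_eq_mul]
    have e2 : (1 - t) * (∑ k ∈ Finset.range n, S (k + 1) - ∑ x ∈ X, S (x.1 + x.2 + 1)) =
        ∑ k ∈ Finset.range n, t ^ (k + 1) - ∑ x ∈ X, t ^ (x.1 + x.2 + 1) := by
      rw [mul_sub, Finset.mul_sum, Finset.mul_sum,
        Finset.sum_congr rfl fun k hk => hSk (k + 1) (by have := Finset.mem_range.mp hk; omega),
        Finset.sum_congr rfl fun x hx => hSk (x.1 + x.2 + 1) (hX x hx),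
        Finset.sum_sub_distrib, Finset.sum_sub_distrib, Finset.sum_const, Finset.sum_const, hcard,
        Finset.card_range]
      ring
    rw [e1]
    rcases lt_trichotomy t 1 with h4 | h4 | h4
    · have h5 := hle t ht h4.le
      have h6 : 0 < 1 - t := by linarith
      by_contra hcon
      push Not at hcon
      have := mul_neg_of_pos_of_neg h6 hcon
      linarith
    · subst h4
      have h5 : ∀ k, k ≤ M → S k = (M : ℝ) - k := by
        intro k hk
        rw [hS]
        dsimp only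
        rw [← Finset.sum_filter]
        have : (Finset.range M).filter (fun m => k ≤ m) = Finset.Ico k M := by
          ext m
          simp only [Finset.mem_filter, Finset.mem_range, Finset.mem_Ico]
          exact and_comm
        rw [this]
        simp only [one_pow, Finset.sum_const, Nat.card_Ico, nsmul_eq_mul, mul_one]
        rw [Nat.cast_sub hk]
      rw [Finset.sum_congr rfl fun k hk => h5 (k + 1) (by have := Finset.mem_range.mp hk; omega),
        Finset.sum_congr rfl fun x hx => h5 (x.1 + x.2 + 1) (hX x hx),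
        Finset.sum_sub_distrib, Finset.sum_sub_distrib, Finset.sum_const, Finset.sum_const, hcard,
        Finset.card_range]
      have : (∑ k ∈ Finset.range n, ((k + 1 : ℕ) : ℝ)) ≤ ∑ x ∈ X, ((x.1 + x.2 + 1 : ℕ) : ℝ) := by
        exact_mod_cast hsum
      linarith
    · have h5 := hge t h4.le
      have h6 : 1 - t < 0 := by linarith
      by_contra hcon
      push Not at hcon
      have := mul_pos_of_neg_of_neg h6 hcon
      linarith
  · have h7 : ∀ N : ℕ, 2 * ∑ k ∈ Finset.range N, (k + 1) = N * (N + 1) := by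
      intro N
      induction N with
      | zero => simp
      | succ N ih => rw [Finset.sum_range_succ, mul_add, ih]; ring
    rw [← h7 n]
    exact Nat.mul_le_mul_left 2 hsum
  · by_contra hcon
    push Not at hcon
    have h5 := hge ((n : ℝ) + 1) (by linarith [Nat.cast_nonneg (α := ℝ) n])
    have hn1 : (1 : ℝ) ≤ (n : ℝ) + 1 := by linarith [Nat.cast_nonneg (α := ℝ) n]
    have h6 : ((n : ℝ) + 1) ^ n ≤ ∑ k ∈ Finset.range n, ((n : ℝ) + 1) ^ (k + 1) := by
      have h7 := Finset.single_le_sum (f := fun k => ((n : ℝ) + 1) ^ (k + 1)) (s := Finset.range n)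
        (fun k _ => pow_nonneg (by linarith) _) (Finset.mem_range.mpr (Nat.sub_lt hnpos one_pos))
      have h8 : n - 1 + 1 = n := by omega
      simp only [h8] at h7
      exact h7
    have h7 : ∑ x ∈ X, ((n : ℝ) + 1) ^ (x.1 + x.2 + 1) ≤ ∑ _x ∈ X, ((n : ℝ) + 1) ^ (n - 1) := by
      refine Finset.sum_le_sum fun x hx => ?_
      exact pow_le_pow_right₀ hn1 (by have := hcon x hx; omega)
    rw [Finset.sum_const, hcard, nsmul_eq_mul] at h7
    have h8 : ((n : ℝ) + 1) ^ n = ((n : ℝ) + 1) * ((n : ℝ) + 1) ^ (n - 1) := by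
      rw [← pow_succ']
      congr 1
      omega
    have h9 : (0 : ℝ) < ((n : ℝ) + 1) ^ (n - 1) := pow_pos (by linarith) _
    nlinarith

end Pool.Agent.Results.MP_f42cbf_co.TwoSidedInequality
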